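import Pool.Agent.H153TR.Strict

set_option autoImplicit false

namespace Pool.Agent.H153TR

open Finset Classical

variable {V : Type*}

theorem sep_left {P Q : Finset (V × V)} (hsep : Sep P Q) {b y x : V} (hPQ : P ⊆ Q) (hP : Tr P)
    (h1 : (y, b) ∈ P) (h2 : (b, y) ∈ P) (hQ : Tr Q) (hby : b ≠ y) (qyx : (y, x) ∈ Q)
    (hyx : (y, x) ∉ P) : False := by
  have q1 : (b, x) ∈ Q := hQ _ _ _ (hPQ h2) qyx
  have p1 : (b, x) ∉ P := fun h => hyx (hP _ _ _ h1 h)
  obtain ⟨R, ⟨hT, hPR, _⟩, h | h⟩ := hsep _ q1 p1 _ qyx hyx (by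
    intro h
    rw [Prod.mk.injEq] at h
    exact hby h.1)
  · exact h.2 (hT _ _ _ (hPR h1) h.1)
  · exact h.1 (hT _ _ _ (hPR h2) h.2)

variable [Fintype V]

theorem step_two {P Q : Finset (V × V)} (hP : Tr P) (hQ : Tr Q) (hPQ : P ⊆ Q)
    (hsep : Sep P Q)
    {s t : V} (hst : s ≠ t) (h1 : (s, t) ∈ Q) (h2 : (t, s) ∈ Q) (h3 : (s, t) ∉ P) :
    Rare P Q ∨ ∃ e ∈ Q, e ∉ P ∧ FreeP P Q e := by
  let C : V → Prop := fun w => (s, w) ∈ Q ∧ (w, s) ∈ Q
  have hC : ∀ a b, C a → (C b ↔ ((a, b) ∈ Q ∧ (b, a) ∈ Q)) := by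
    rintro a b ⟨ha1, ha2⟩
    constructor
    · rintro ⟨hb1, hb2⟩
      exact ⟨hQ _ _ _ ha2 hb1, hQ _ _ _ hb2 ha1⟩
    · rintro ⟨hb1, hb2⟩
      exact ⟨hQ _ _ _ ha1 hb1, hQ _ _ _ hb2 ha2⟩
  have hss : C s := ⟨hQ _ _ _ h1 h2, hQ _ _ _ h1 h2⟩
  have hts : C t := ⟨h1, h2⟩
  have hsum : ∀ f : V × V, ((fam P Q).filter (fun R => f ∈ R)).card +
      ((fam P Q).filter (fun R => f ∉ R)).card = (fam P Q).card := fun f =>
    card_filter_add_card_filter_not (s := fam P Q) (fun R => f ∈ R)
  by_cases hA : ∃ x y, C x ∧ C y ∧ x ≠ y ∧ (x, y) ∈ P ∧ (y, x) ∉ P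
  · let M : Finset V := univ.filter (fun y => C y ∧ ∃ x, C x ∧ x ≠ y ∧ (x, y) ∈ P ∧ (y, x) ∉ P)
    have hM : M.Nonempty := by
      obtain ⟨x, y, hx, hy, hne, h4, h5⟩ := hA
      exact ⟨y, mem_filter.2 ⟨mem_univ _, hy, x, hx, hne, h4, h5⟩⟩
    let D : V → Finset V := fun y => univ.filter (fun w => w = y ∨ (y, w) ∈ P)
    obtain ⟨y, hyM, hmin⟩ := exists_min_image M (fun y => (D y).card) hM
    obtain ⟨-, hy, x, hx, hne, h4, h5⟩ := mem_filter.1 hyM
    have hmax : ∀ v, ¬ Eqv P y v → C v → (y, v) ∉ P := by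
      intro v hv cv hyv
      have hyv' : y ≠ v := fun h' => hv (Or.inl h')
      have hvy : (v, y) ∉ P := fun h' => hv (Or.inr ⟨hyv, h'⟩)
      have hvM : v ∈ M := mem_filter.2 ⟨mem_univ _, cv, y, hy, hyv', hyv, hvy⟩
      have h6 := hmin v hvM
      have h7 : D v ⊂ D y := by
        refine (ssubset_iff_of_subset ?_).2 ⟨y, ?_, ?_⟩
        · intro w hw
          simp only [D, mem_filter, mem_univ, true_and] at hw ⊢
          rcases hw with rfl | hw
          · exact Or.inr hyv
          · exact Or.inr (hP _ _ _ hyv hw)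
        · simp only [D, mem_filter, mem_univ, true_and]
          exact Or.inl trivial
        · simp only [D, mem_filter, mem_univ, true_and]
          rintro (h8 | h8)
          · exact hyv' h8
          · exact hvy h8
      exact absurd (card_lt_card h7) (not_lt.2 h6)
    have hxy : ¬ Eqv P y x := by
      rintro (h' | ⟨h', _⟩)
      · exact hne h'.symm
      · exact h5 h'
    have qyx : (y, x) ∈ Q := ((hC y x hy).1 hx).1
    have sub : ((fam P Q).filter (fun R => (y, x) ∈ R)).card ≤
        ((fam P Q).filter (fun R => (x, y) ∈ R ∧ (y, x) ∈ R)).card := by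
      apply card_le_card
      intro R hR
      rw [mem_filter] at hR ⊢
      exact ⟨hR.1, (mem_fam.1 hR.1).2.1 h4, hR.2⟩
    by_cases hG : ∀ S, Mid P Q S → (y, x) ∉ S → (¬ True → (x, y) ∉ S) → Good P C x y S
    · by_cases hthird : ∃ b, C b ∧ b ≠ x ∧ b ≠ y
      · left
        obtain ⟨b, cb, hbx, hby⟩ := hthird
        by_cases hyb : Eqv P y b
        · exfalso
          rcases hyb with hyb | ⟨ha, hb⟩
          · exact hby hyb.symm
          · exact sep_left hsep hPQ hP ha hb hQ hby qyx h5
        · by_cases hbP : (b, x) ∈ P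
          · have q1 : (y, b) ∈ Q := ((hC y b hy).1 cb).1
            have p1 : (y, b) ∉ P := hmax b hyb cb
            refine ⟨(y, b), q1, p1, ?_⟩
            have imp : ∀ R, Mid P Q R → (y, b) ∈ R → (y, x) ∈ R := by
              rintro R ⟨hT, hPR, _⟩ hR
              exact hT _ _ _ hR (hPR hbP)
            have lt1 : ((fam P Q).filter (fun R => (y, b) ∈ R)).card <
                ((fam P Q).filter (fun R => (y, x) ∈ R)).card := by
              apply card_lt_card
              obtain ⟨R, hR, h6 | h6⟩ := hsep _ q1 p1 _ qyx h5 (by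
                intro h
                rw [Prod.mk.injEq] at h
                exact hbx h.2)
              · exact absurd (imp R hR h6.1) h6.2
              · refine (ssubset_iff_of_subset ?_).2 ⟨R, ?_, ?_⟩
                · intro T hT
                  rw [mem_filter] at hT ⊢
                  exact ⟨hT.1, imp T (mem_fam.1 hT.1) hT.2⟩
                · exact mem_filter.2 ⟨mem_fam.2 hR, h6.2⟩
                · intro h'
                  exact h6.1 (mem_filter.1 h').2
            have key := twin_count hP hQ hPQ (K := True) hC hx hy hxy (fun _ _ _ _ => trivial) hmax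
              (fun R => (y, x) ∉ R) (fun R h _ => h)
            have e1 := hsum (y, b)
            have e2 := hsum (y, x)
            omega
          · exfalso
            have q1 : (y, b) ∈ Q := ((hC y b hy).1 cb).1
            have g := hG _ (addp_mid hP hQ hPQ q1) (by
              rw [mem_addp hQ hPQ q1]
              rintro (h | ⟨_, h | h⟩)
              · exact h5 h
              · exact hbx h.symm
              · exact hbP h) (fun h => absurd trivial h)
            exact g.2.2.2.2.1 b hyb cb
              ((mem_addp hQ hPQ q1 _ _).2 (Or.inr ⟨Or.inl rfl, Or.inl rfl⟩))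
      · right
        push Not at hthird
        refine ⟨(y, x), qyx, h5, ?_⟩
        refine twin_free hP hQ hPQ (K := True) hC hx hy hxy hmax (fun h => absurd trivial h) ?_ hG
        intro b cb
        by_cases hbx : b = x
        · exact Or.inl hbx
        · exact Or.inr (hthird b cb hbx)
    · left
      push Not at hG
      obtain ⟨S, hS, hyS, -, hgS⟩ := hG
      have key := twin_strict hP hQ hPQ (K := True) hC hx hy hxy (fun _ _ _ _ => trivial) hmax
        (fun R => (y, x) ∉ R) (fun R h _ => h) hS hyS hgS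
      exact ⟨(y, x), qyx, h5, lt_of_le_of_lt sub key⟩
  · push Not at hA
    have hsym : ∀ a b, C a → C b → (a, b) ∈ P → Eqv P b a := by
      intro a b ha hb hab
      by_cases hne : a = b
      · exact Or.inl hne.symm
      · exact Or.inr ⟨hA a b ha hb hne hab, hab⟩
    have hxy : ¬ Eqv P s t := by
      rintro (h' | ⟨h', _⟩)
      · exact hst h'
      · exact h3 h'
    have h5 : (t, s) ∉ P := by
      intro h'
      rcases hsym t s hts hss h' with h6 | ⟨h6, _⟩
      · exact hst h6
      · exact h3 h6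
    have hin : ∀ u, ¬ Eqv P s u → C u → (u, s) ∈ P → False :=
      fun u hu cu hus => hu (hsym u s cu hss hus)
    have hout : ∀ v, ¬ Eqv P s v → C v → (s, v) ∉ P := fun v hv cv hsv => by
      rcases hsym s v hss cv hsv with h6 | ⟨h6, h7⟩
      · exact hv (Or.inl h6.symm)
      · exact hv (Or.inr ⟨h7, h6⟩)
    by_cases hG : ∀ S, Mid P Q S → (s, t) ∉ S → (¬ False → (t, s) ∉ S) → Good P C t s S
    · by_cases hthird : ∃ b, C b ∧ b ≠ t ∧ b ≠ s
      · exfalso
        obtain ⟨b, cb, hbt, hbs⟩ := hthird
        by_cases hsb : Eqv P s b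
        · rcases hsb with hsb | ⟨ha, hb⟩
          · exact hbs hsb.symm
          · exact sep_left hsep hPQ hP ha hb hQ hbs h1 h3
        · by_cases hbP : (b, t) ∈ P
          · rcases hsym b t cb hts hbP with h6 | ⟨h6, h7⟩
            · exact hbt h6.symm
            · exact sep_left hsep hPQ hP h6 h7 hQ hbt h2 h5
          · have q1 : (s, b) ∈ Q := ((hC s b hss).1 cb).1
            have g := hG _ (addp_mid hP hQ hPQ q1) (by
              rw [mem_addp hQ hPQ q1]
              rintro (h | ⟨_, h | h⟩)
              · exact h3 h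
              · exact hbt h.symm
              · exact hbP h) (by
              intro _
              rw [mem_addp hQ hPQ q1]
              rintro (h | ⟨h | h, _⟩)
              · exact h5 h
              · exact hst h.symm
              · exact h5 h)
            exact g.2.2.2.2.1 b hsb cb
              ((mem_addp hQ hPQ q1 _ _).2 (Or.inr ⟨Or.inl rfl, Or.inl rfl⟩))
      · right
        push Not at hthird
        refine ⟨(s, t), h1, h3, ?_⟩
        refine twin_free hP hQ hPQ (K := False) hC hts hss hxy hout (fun _ => h5) ?_ hG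
        intro b cb
        by_cases hbx : b = t
        · exact Or.inl hbx
        · exact Or.inr (hthird b cb hbx)
    · left
      push Not at hG
      obtain ⟨S, hS, hyS, hyS', hgS⟩ := hG
      have key := twin_strict hP hQ hPQ (K := False) hC hts hss hxy hin hout
        (fun R => (t, s) ∉ R ∧ (s, t) ∉ R) (fun R h h' => ⟨h' (fun h => h), h⟩) hS
        ⟨hyS' trivial, hyS⟩ hgS
      let F := fam P Q
      have e1 : (F.filter (fun R => (t, s) ∈ R)).card =
          (F.filter (fun R => (t, s) ∈ R ∧ (s, t) ∈ R)).card +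
          (F.filter (fun R => (t, s) ∈ R ∧ (s, t) ∉ R)).card := by
        rw [← card_filter_add_card_filter_not (s := F.filter (fun R => (t, s) ∈ R))
          (fun R => (s, t) ∈ R), filter_filter, filter_filter]
      have e2 : (F.filter (fun R => (t, s) ∉ R)).card =
          (F.filter (fun R => (t, s) ∉ R ∧ (s, t) ∈ R)).card +
          (F.filter (fun R => (t, s) ∉ R ∧ (s, t) ∉ R)).card := by
        rw [← card_filter_add_card_filter_not (s := F.filter (fun R => (t, s) ∉ R))
          (fun R => (s, t) ∈ R), filter_filter, filter_filter]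
      have e3 : (F.filter (fun R => (s, t) ∈ R)).card =
          (F.filter (fun R => (t, s) ∈ R ∧ (s, t) ∈ R)).card +
          (F.filter (fun R => (t, s) ∉ R ∧ (s, t) ∈ R)).card := by
        rw [← card_filter_add_card_filter_not (s := F.filter (fun R => (s, t) ∈ R))
          (fun R => (t, s) ∈ R), filter_filter, filter_filter]
        congr 1 <;> congr 1 <;> ext R <;> simp only [mem_filter] <;> tauto
      have e4 : (F.filter (fun R => (s, t) ∉ R)).card =
          (F.filter (fun R => (t, s) ∈ R ∧ (s, t) ∉ R)).card +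
          (F.filter (fun R => (t, s) ∉ R ∧ (s, t) ∉ R)).card := by
        rw [← card_filter_add_card_filter_not (s := F.filter (fun R => (s, t) ∉ R))
          (fun R => (t, s) ∈ R), filter_filter, filter_filter]
        congr 1 <;> congr 1 <;> ext R <;> simp only [mem_filter] <;> tauto
      have e5 : (F.filter (fun R => (t, s) ∈ R ∧ (s, t) ∈ R)).card <
          (F.filter (fun R => (t, s) ∉ R ∧ (s, t) ∉ R)).card := key
      rcases le_total (F.filter (fun R => (t, s) ∈ R ∧ (s, t) ∉ R)).card
          (F.filter (fun R => (t, s) ∉ R ∧ (s, t) ∈ R)).card with h6 | h6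
      · refine ⟨(t, s), h2, h5, ?_⟩
        show (F.filter (fun R => (t, s) ∈ R)).card < (F.filter (fun R => (t, s) ∉ R)).card
        rw [e1, e2]
        omega
      · refine ⟨(s, t), h1, h3, ?_⟩
        show (F.filter (fun R => (s, t) ∈ R)).card < (F.filter (fun R => (s, t) ∉ R)).card
        rw [e3, e4]
        omega

omit [Fintype V] in
theorem mid_erase {P Q : Finset (V × V)} {e : V × V} (heP : e ∉ P) (hf : FreeP P Q e)
    {R : Finset (V × V)} (hR : Mid P Q R) : Mid P (Q.erase e) (R.erase e) := by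
  obtain ⟨hT, hPR, hRQ⟩ := hR
  refine ⟨?_, ?_, erase_subset_erase _ hRQ⟩
  · intro a b c hab hbc
    have h1 := hf.2 a b c (erase_subset_erase _ hRQ hab) (erase_subset_erase _ hRQ hbc)
    rw [mem_erase] at *
    exact ⟨h1.1, hT _ _ _ hab.2 hbc.2⟩
  · intro p hp
    rw [mem_erase]
    exact ⟨fun h => heP (h ▸ hp), hPR hp⟩

theorem double {P Q : Finset (V × V)} {e : V × V} (heP : e ∉ P) (hf : FreeP P Q e)
    (q : Finset (V × V) → Prop) [DecidablePred q] (hq : ∀ R, q R ↔ q (R.erase e)) :
    ((fam P Q).filter q).card = 2 * ((fam P (Q.erase e)).filter q).card := by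
  have hlift : ∀ R, Mid P (Q.erase e) R → Mid P Q R := fun R h =>
    ⟨h.1, h.2.1, h.2.2.trans (erase_subset _ _)⟩
  have h0 : ((fam P Q).filter q).card =
      ((fam P Q).filter (fun R => q R ∧ e ∈ R)).card +
      ((fam P Q).filter (fun R => q R ∧ e ∉ R)).card := by
    rw [← card_filter_add_card_filter_not (s := (fam P Q).filter q) (fun R => e ∈ R),
      filter_filter, filter_filter]
  have h1 : ((fam P Q).filter (fun R => q R ∧ e ∈ R)).card =
      ((fam P (Q.erase e)).filter q).card := by
    refine card_nbij' (fun R => R.erase e) (fun R => insert e R) ?_ ?_ ?_ ?_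
    · intro R hR
      rw [mem_coe, mem_filter, mem_fam] at hR
      rw [mem_coe, mem_filter, mem_fam]
      exact ⟨mid_erase heP hf hR.1, (hq R).1 hR.2.1⟩
    · intro R hR
      rw [mem_coe, mem_filter, mem_fam] at hR
      rw [mem_coe, mem_filter, mem_fam]
      have hn : e ∉ R := fun h => (mem_erase.1 (hR.1.2.2 h)).1 rfl
      refine ⟨hf.1 R (hlift R hR.1), ?_, mem_insert_self _ _⟩
      rw [hq, erase_insert hn]
      exact hR.2
    · intro R hR
      rw [mem_coe, mem_filter, mem_fam] at hR
      exact insert_erase hR.2.2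
    · intro R hR
      rw [mem_coe, mem_filter, mem_fam] at hR
      have hn : e ∉ R := fun h => (mem_erase.1 (hR.1.2.2 h)).1 rfl
      exact erase_insert hn
  have h2 : ((fam P Q).filter (fun R => q R ∧ e ∉ R)).card =
      ((fam P (Q.erase e)).filter q).card := by
    congr 1
    ext R
    rw [mem_filter, mem_filter, mem_fam, mem_fam]
    constructor
    · rintro ⟨hR, hqR, hn⟩
      have := mid_erase heP hf hR
      rw [erase_eq_of_notMem hn] at this
      exact ⟨this, hqR⟩
    · rintro ⟨hR, hqR⟩
      exact ⟨hlift R hR, hqR, fun h => (mem_erase.1 (hR.2.2 h)).1 rfl⟩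
  omega

/-- the strict form -/
theorem strict_pair {P : Finset (V × V)} (hP : Tr P) (n : ℕ) :
    ∀ Q : Finset (V × V), Q.card = n → Tr Q → P ⊆ Q → Sep P Q →
      (∃ R, P ⊆ R ∧ R ⊆ Q ∧ ¬ Tr R) → Rare P Q := by
  induction n using Nat.strong_induction_on with
  | _ n ih =>
    intro Q hn hQ hPQ hsep hnps
    have hne : P ≠ Q := by
      rintro rfl
      obtain ⟨R, h1, h2, h3⟩ := hnps
      exact h3 (subset_antisymm h1 h2 ▸ hQ)
    have step : Rare P Q ∨ ∃ e ∈ Q, e ∉ P ∧ FreeP P Q e := by
      by_cases h : ∀ u v, u ≠ v → (u, v) ∈ Q → (v, u) ∈ Q → (u, v) ∈ P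
      · exact step_one hP hQ hPQ hne hsep h
      · push Not at h
        obtain ⟨s, t, hst, h1, h2, h3⟩ := h
        exact step_two hP hQ hPQ hsep hst h1 h2 h3
    rcases step with h | ⟨e, he, heP, hf⟩
    · exact h
    · have hsub : P ⊆ Q.erase e := by
        intro p hp
        rw [mem_erase]
        exact ⟨fun h => heP (h ▸ hp), hPQ hp⟩
      have hsep' : Sep P (Q.erase e) := by
        intro a ha ha' b hb hb' hab
        rw [mem_erase] at ha hb
        obtain ⟨R, hR, h | h⟩ := hsep a ha.2 ha' b hb.2 hb' hab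
        · exact ⟨R.erase e, mid_erase heP hf hR,
            Or.inl ⟨mem_erase.2 ⟨ha.1, h.1⟩, fun h' => h.2 (mem_erase.1 h').2⟩⟩
        · exact ⟨R.erase e, mid_erase heP hf hR,
            Or.inr ⟨fun h' => h.1 (mem_erase.1 h').2, mem_erase.2 ⟨hb.1, h.2⟩⟩⟩
      have hnps' : ∃ R, P ⊆ R ∧ R ⊆ Q.erase e ∧ ¬ Tr R := by
        obtain ⟨R, h1, h2, h3⟩ := hnps
        have h4 : P ⊆ R.erase e := by
          intro p hp
          rw [mem_erase]
          exact ⟨fun h => heP (h ▸ hp), h1 hp⟩
        refine ⟨R.erase e, h4, erase_subset_erase _ h2, ?_⟩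
        intro hT
        have h5 : Mid P Q (R.erase e) := ⟨hT, h4, (erase_subset _ _).trans h2⟩
        by_cases heR : e ∈ R
        · have h6 := hf.1 _ h5
          rw [insert_erase heR] at h6
          exact h3 h6.1
        · rw [erase_eq_of_notMem heR] at hT
          exact h3 hT
      have hcard : (Q.erase e).card < n := by
        rw [← hn]
        exact card_erase_lt_of_mem he
      obtain ⟨e', he', heP', hlt⟩ := ih _ hcard (Q.erase e) rfl hf.2 hsub hsep' hnps'
      rw [mem_erase] at he'
      refine ⟨e', he'.2, heP', ?_⟩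
      rw [double heP hf (fun R => e' ∈ R) (fun R => by
          show e' ∈ R ↔ e' ∈ R.erase e
          rw [mem_erase]
          exact ⟨fun h => ⟨he'.1, h⟩, fun h => h.2⟩),
        double heP hf (fun R => e' ∉ R) (fun R => by
          show e' ∉ R ↔ e' ∉ R.erase e
          rw [mem_erase]
          exact not_congr ⟨fun h => ⟨he'.1, h⟩, fun h => h.2⟩)]
      omega

end Pool.Agent.H153TR
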