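import Pool.Agent.H153TR.Weak
import Pool.Agent.H153TR.Strict2

set_option autoImplicit false

namespace Pool.Agent.H153TR

open Finset

/-- the strict form for the family of the complements -/
theorem strict {V : Type*} [Finite V] [DecidableEq V] (P Q : Finset (V × V))
    (hP : ∀ a b c, (a, b) ∈ P → (b, c) ∈ P → (a, c) ∈ P)
    (hQ : ∀ a b c, (a, b) ∈ Q → (b, c) ∈ Q → (a, c) ∈ Q) (hPQ : P ⊆ Q)
    (A : Finset (Finset (V × V)))
    (hA : ∀ X, X ∈ A ↔ ∃ R : Finset (V × V), (∀ a b c, (a, b) ∈ R → (b, c) ∈ R → (a, c) ∈ R) ∧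
      P ⊆ R ∧ R ⊆ Q ∧ X = Q \ R)
    (hsep : ∀ e ∈ Q \ P, ∀ e' ∈ Q \ P, e ≠ e' →
      ∃ X ∈ A, (e ∈ X ∧ e' ∉ X) ∨ (e ∉ X ∧ e' ∈ X))
    (hne : A ≠ (Q \ P).powerset) :
    ∃ e ∈ Q \ P, A.card < 2 * (A.filter (fun X => e ∈ X)).card := by
  have := Fintype.ofFinite V
  have hs : Sep P Q := by
    intro e he he' f hf hf' hef
    obtain ⟨X, hX, h⟩ := hsep e (mem_sdiff.2 ⟨he, he'⟩) f (mem_sdiff.2 ⟨hf, hf'⟩) hef
    obtain ⟨R, h1, h2, h3, rfl⟩ := (hA X).1 hX
    refine ⟨R, ⟨h1, h2, h3⟩, ?_⟩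
    rw [mem_sdiff, mem_sdiff] at h
    tauto
  have hnps : ∃ R, P ⊆ R ∧ R ⊆ Q ∧ ¬ Tr R := by
    by_contra hcon
    push Not at hcon
    apply hne
    ext X
    rw [hA, mem_powerset]
    constructor
    · rintro ⟨R, h1, h2, h3, rfl⟩
      exact sdiff_subset_sdiff subset_rfl h2
    · intro hX
      have hXQ : X ⊆ Q := hX.trans sdiff_subset
      have h1 : P ⊆ Q \ X := by
        intro p hp
        rw [mem_sdiff]
        exact ⟨hPQ hp, fun h => (mem_sdiff.1 (hX h)).2 hp⟩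
      exact ⟨Q \ X, hcon _ h1 sdiff_subset, h1, sdiff_subset,
        (Finset.sdiff_sdiff_eq_self hXQ).symm⟩
  obtain ⟨e, he, heP, hc⟩ := strict_pair (P := P) hP Q.card Q rfl hQ hPQ hs hnps
  refine ⟨e, mem_sdiff.2 ⟨he, heP⟩, ?_⟩
  classical
  have hAi : A = (fam P Q).image (fun R => Q \ R) := by
    ext X
    rw [hA, mem_image]
    constructor
    · rintro ⟨R, h1, h2, h3, rfl⟩
      exact ⟨R, mem_fam.2 ⟨h1, h2, h3⟩, rfl⟩
    · rintro ⟨R, h1, rfl⟩
      obtain ⟨h1, h2, h3⟩ := mem_fam.1 h1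
      exact ⟨R, h1, h2, h3, rfl⟩
  have hinj : Set.InjOn (fun R => Q \ R) (fam P Q : Set (Finset (V × V))) := by
    intro R hR S hS h
    have hR' := (mem_fam.1 (mem_coe.1 hR)).2.2
    have hS' := (mem_fam.1 (mem_coe.1 hS)).2.2
    have h' : Q \ R = Q \ S := h
    rw [← Finset.sdiff_sdiff_eq_self hR', h', Finset.sdiff_sdiff_eq_self hS']
  have h1 : A.card = (fam P Q).card := by
    rw [hAi, card_image_of_injOn hinj]
  have h2 : (A.filter (fun X => e ∈ X)).card = ((fam P Q).filter (fun R => e ∉ R)).card := by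
    rw [hAi, filter_image, card_image_of_injOn]
    · congr 1
      ext R
      rw [mem_filter, mem_filter, mem_sdiff]
      exact ⟨fun h => ⟨h.1, h.2.2⟩, fun h => ⟨h.1, he, h.2⟩⟩
    · intro R hR S hS h
      exact hinj (mem_coe.2 (mem_filter.1 (mem_coe.1 hR)).1)
        (mem_coe.2 (mem_filter.1 (mem_coe.1 hS)).1) h
  have h3 := card_filter_add_card_filter_not (s := fam P Q) (fun R => e ∈ R)
  rw [h1, h2]
  have h4 : ((fam P Q).filter (fun R => e ∈ R)).card <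
      ((fam P Q).filter (fun R => e ∉ R)).card := by
    convert hc
  have h5 : (filter (fun R => e ∈ R) (fam P Q)).card + (filter (fun R => e ∉ R) (fam P Q)).card
      = (fam P Q).card := by
    convert h3
  omega

end Pool.Agent.H153TR
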