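import Mathlib

set_option autoImplicit false

namespace Pool.Agent.H153TR

open Finset Classical

variable {V : Type*}

/-- the relation `R` (a set of pairs) is transitive -/
def Tr (R : Finset (V × V)) : Prop := ∀ a b c, (a, b) ∈ R → (b, c) ∈ R → (a, c) ∈ R

/-- the interval of the transitive relations between `P` and `Q` -/
def Mid (P Q R : Finset (V × V)) : Prop := Tr R ∧ P ⊆ R ∧ R ⊆ Q

/-- equal, or related in both directions -/
def Eqv (P : Finset (V × V)) (a b : V) : Prop := a = b ∨ ((a, b) ∈ P ∧ (b, a) ∈ P)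

/-- the twin surgery -/
noncomputable def surg (Q : Finset (V × V)) (Y C : V → Prop) (K : Prop) (x : V)
    (R : Finset (V × V)) : Finset (V × V) :=
  Q.filter (fun p => (¬ Y p.1 ∧ ¬ Y p.2 ∧ p ∈ R) ∨
    (¬ Y p.1 ∧ Y p.2 ∧ (C p.1 → K) ∧ (p.1, x) ∈ R) ∨
    (Y p.1 ∧ ¬ Y p.2 ∧ ¬ C p.2 ∧ (x, p.2) ∈ R) ∨ (Y p.1 ∧ Y p.2))

section twin

variable {P Q : Finset (V × V)} {C : V → Prop} {K : Prop} {x y : V}

theorem surg_mem_iff {Y : V → Prop} {R : Finset (V × V)} (u v : V) :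
    (u, v) ∈ surg Q Y C K x R ↔ (u, v) ∈ Q ∧ ((¬ Y u ∧ ¬ Y v ∧ (u, v) ∈ R) ∨
    (¬ Y u ∧ Y v ∧ (C u → K) ∧ (u, x) ∈ R) ∨
    (Y u ∧ ¬ Y v ∧ ¬ C v ∧ (x, v) ∈ R) ∨ (Y u ∧ Y v)) := by
  unfold surg
  rw [mem_filter]

theorem surg_mid (hP : Tr P) (hQ : Tr Q) (hPQ : P ⊆ Q)
    (hC : ∀ a b, C a → (C b ↔ ((a, b) ∈ Q ∧ (b, a) ∈ Q)))
    (hx : C x) (hy : C y)
    (hin : ∀ u, ¬ Eqv P y u → C u → (u, y) ∈ P → K)
    (hout : ∀ v, ¬ Eqv P y v → C v → (y, v) ∉ P)
    {R : Finset (V × V)} (hR : Mid P Q R) (h1 : (x, y) ∈ R) (h2 : (y, x) ∈ R) :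
    Mid P Q (surg Q (Eqv P y) C K x R) := by
  obtain ⟨hT, hPR, hRQ⟩ := hR
  have hYC : ∀ w, Eqv P y w → C w := by
    rintro w (rfl | ⟨ha, hb⟩)
    · exact hy
    · exact (hC y w hy).2 ⟨hPQ ha, hPQ hb⟩
  have hCC : ∀ a b, C a → C b → (a, b) ∈ Q := fun a b ha hb => ((hC a b ha).1 hb).1
  -- a point between two points of `C` is in `C`
  have hbet : ∀ a b c, C a → C c → (a, b) ∈ Q → (b, c) ∈ Q → C b := by
    intro a b c ha hc hab hbc
    exact (hC a b ha).2 ⟨hab, hQ _ _ _ hbc (hCC c a hc ha)⟩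
  refine ⟨?_, ?_, ?_⟩
  · intro a b c hab hbc
    rw [surg_mem_iff] at hab hbc ⊢
    obtain ⟨qab, hab⟩ := hab
    obtain ⟨qbc, hbc⟩ := hbc
    refine ⟨hQ _ _ _ qab qbc, ?_⟩
    rcases hab with ⟨ya, yb, rab⟩ | ⟨ya, yb, ka, rax⟩ | ⟨ya, yb, cb, rxb⟩ | ⟨ya, yb⟩
    · rcases hbc with ⟨_, yc, rbc⟩ | ⟨_, yc, kb, rbx⟩ | ⟨yb', _⟩ | ⟨yb', _⟩
      · exact Or.inl ⟨ya, yc, hT _ _ _ rab rbc⟩
      · refine Or.inr (Or.inl ⟨ya, yc, fun ca => kb ?_, hT _ _ _ rab rbx⟩)
        exact hbet a b x ca hx (hRQ rab) (hRQ rbx)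
      · exact absurd yb' yb
      · exact absurd yb' yb
    · rcases hbc with ⟨yb', _⟩ | ⟨yb', _⟩ | ⟨_, yc, cc, rxc⟩ | ⟨_, yc⟩
      · exact absurd yb yb'
      · exact absurd yb yb'
      · exact Or.inl ⟨ya, yc, hT _ _ _ rax rxc⟩
      · exact Or.inr (Or.inl ⟨ya, yc, ka, rax⟩)
    · rcases hbc with ⟨_, yc, rbc⟩ | ⟨_, yc, kb, rbx⟩ | ⟨yb', _⟩ | ⟨yb', _⟩
      · refine Or.inr (Or.inr (Or.inl ⟨ya, yc, fun cc => cb ?_, hT _ _ _ rxb rbc⟩))
        exact hbet x b c hx cc (hRQ rxb) (hRQ rbc)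
      · exact absurd (hbet x b x hx hx (hRQ rxb) (hRQ rbx)) cb
      · exact absurd yb' yb
      · exact absurd yb' yb
    · rcases hbc with ⟨yb', _⟩ | ⟨yb', _⟩ | ⟨_, yc, cc, rxc⟩ | ⟨_, yc⟩
      · exact absurd yb yb'
      · exact absurd yb yb'
      · exact Or.inr (Or.inr (Or.inl ⟨ya, yc, cc, rxc⟩))
      · exact Or.inr (Or.inr (Or.inr ⟨ya, yc⟩))
  · rintro ⟨u, v⟩ huv
    rw [surg_mem_iff]
    refine ⟨hPQ huv, ?_⟩
    by_cases yu : Eqv P y u <;> by_cases yv : Eqv P y v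
    · exact Or.inr (Or.inr (Or.inr ⟨yu, yv⟩))
    · have hyv : (y, v) ∈ P := by
        rcases yu with rfl | ⟨ha, hb⟩
        · exact huv
        · exact hP _ _ _ ha huv
      refine Or.inr (Or.inr (Or.inl ⟨yu, yv, fun cv => hout v yv cv hyv, ?_⟩))
      exact hT _ _ _ h1 (hPR hyv)
    · have huy : (u, y) ∈ P := by
        rcases yv with rfl | ⟨ha, hb⟩
        · exact huv
        · exact hP _ _ _ huv hb
      refine Or.inr (Or.inl ⟨yu, yv, fun cu => hin u yu cu huy, ?_⟩)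
      exact hT _ _ _ (hPR huy) h2
    · exact Or.inl ⟨yu, yv, hPR huv⟩
  · intro p hp
    exact (mem_filter.1 hp).1

theorem surg_inj {R S : Finset (V × V)} (hR : Mid P Q R) (hS : Mid P Q S)
    (hxy : ¬ Eqv P y x)
    (h1 : (x, y) ∈ R) (h2 : (y, x) ∈ R) (h3 : (x, y) ∈ S) (h4 : (y, x) ∈ S)
    (h : surg Q (Eqv P y) C K x R = surg Q (Eqv P y) C K x S) : R = S := by
  have key : ∀ R : Finset (V × V), Mid P Q R → (x, y) ∈ R → (y, x) ∈ R → ∀ u v, (u, v) ∈ R ↔
      (Eqv P y u ∧ Eqv P y v) ∨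
      (¬ Eqv P y u ∧ ¬ Eqv P y v ∧ (u, v) ∈ surg Q (Eqv P y) C K x R) ∨
      (¬ Eqv P y u ∧ Eqv P y v ∧ (u, x) ∈ surg Q (Eqv P y) C K x R) ∨
      (Eqv P y u ∧ ¬ Eqv P y v ∧ (x, v) ∈ surg Q (Eqv P y) C K x R) := by
    intro R hR h1 h2 u v
    obtain ⟨hT, hPR, hRQ⟩ := hR
    have hxx : (x, x) ∈ R := hT _ _ _ h1 h2
    have hyy : (y, y) ∈ R := hT _ _ _ h2 h1
    have toY : ∀ w, Eqv P y w → (x, w) ∈ R ∧ (w, x) ∈ R := by
      rintro w (rfl | ⟨ha, hb⟩)
      · exact ⟨h1, h2⟩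
      · exact ⟨hT _ _ _ h1 (hPR ha), hT _ _ _ (hPR hb) h2⟩
    have plain : ∀ a b, ¬ Eqv P y a → ¬ Eqv P y b →
        ((a, b) ∈ surg Q (Eqv P y) C K x R ↔ (a, b) ∈ R) := by
      intro a b ha hb
      rw [surg_mem_iff]
      constructor
      · rintro ⟨_, h | h | h | h⟩
        · exact h.2.2
        · exact absurd h.2.1 hb
        · exact absurd h.1 ha
        · exact absurd h.1 ha
      · intro h
        exact ⟨hRQ h, Or.inl ⟨ha, hb, h⟩⟩
    by_cases yu : Eqv P y u <;> by_cases yv : Eqv P y v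
    · have : (u, v) ∈ R := hT _ _ _ (toY u yu).2 (toY v yv).1
      simp [yu, yv, this]
    · rw [plain x v hxy yv]
      have : (u, v) ∈ R ↔ (x, v) ∈ R :=
        ⟨fun h => hT _ _ _ (toY u yu).1 h, fun h => hT _ _ _ (toY u yu).2 h⟩
      simp [yu, yv, this]
    · rw [plain u x yu hxy]
      have : (u, v) ∈ R ↔ (u, x) ∈ R :=
        ⟨fun h => hT _ _ _ h (toY v yv).2, fun h => hT _ _ _ h (toY v yv).1⟩
      simp [yu, yv, this]
    · rw [plain u v yu yv]
      simp [yu, yv]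
  ext ⟨u, v⟩
  rw [key R hR h1 h2 u v, key S hS h3 h4 u v, h]

theorem surg_not_mem (hxy : ¬ Eqv P y x) (hx : C x) {R : Finset (V × V)} :
    (y, x) ∉ surg Q (Eqv P y) C K x R := by
  rw [surg_mem_iff]
  have yy : Eqv P y y := Or.inl rfl
  rintro ⟨_, h | h | h | h⟩
  · exact h.1 yy
  · exact h.1 yy
  · exact h.2.2.1 hx
  · exact hxy h.2

theorem surg_not_mem' (hxy : ¬ Eqv P y x) (hx : C x) (hK : ¬ K) {R : Finset (V × V)} :
    (x, y) ∉ surg Q (Eqv P y) C K x R := by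
  rw [surg_mem_iff]
  have yy : Eqv P y y := Or.inl rfl
  rintro ⟨_, h | h | h | h⟩
  · exact h.2.1 yy
  · exact hK (h.2.2.1 hx)
  · exact hxy h.1
  · exact hxy h.1

end twin

variable [Fintype V]

/-- the finite set of the transitive relations between `P` and `Q` -/
noncomputable def fam (P Q : Finset (V × V)) : Finset (Finset (V × V)) :=
  Q.powerset.filter (fun R => Mid P Q R)

theorem mem_fam {P Q R : Finset (V × V)} : R ∈ fam P Q ↔ Mid P Q R := by
  unfold fam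
  rw [mem_filter, mem_powerset]
  exact ⟨fun h => h.2, fun h => ⟨h.2.2, h⟩⟩

/-- the first case: no new pairs inside the classes of `Q` -/
theorem case_one {P Q : Finset (V × V)} (hP : Tr P) (hQ : Tr Q) (hPQ : P ⊆ Q) (hne : P ≠ Q)
    (h : ∀ u v, u ≠ v → (u, v) ∈ Q → (v, u) ∈ Q → (u, v) ∈ P) :
    ∃ e ∈ Q, e ∉ P ∧ ((fam P Q).filter (fun R => e ∈ R)).card ≤
      ((fam P Q).filter (fun R => e ∉ R)).card := by
  let B : V × V → Finset V := fun p =>
    univ.filter (fun w => (w = p.1 ∨ (p.1, w) ∈ Q) ∧ (w = p.2 ∨ (w, p.2) ∈ Q))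
  have hn : (Q \ P).Nonempty := by
    rw [sdiff_nonempty]
    intro h'
    exact hne (subset_antisymm hPQ h')
  obtain ⟨⟨x, y⟩, hxy, hmin⟩ := exists_min_image (Q \ P) (fun p => (B p).card) hn
  rw [mem_sdiff] at hxy
  obtain ⟨qxy, pxy⟩ := hxy
  -- the points between `x` and `y`
  have hbet : ∀ z, (x, z) ∈ Q → (z, y) ∈ Q → Eqv P x z ∨ Eqv P y z := by
    intro z hxz hzy
    by_contra hcon
    push Not at hcon
    obtain ⟨hX, hY⟩ := hcon
    have hxz' : x ≠ z := fun h' => hX (Or.inl h')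
    have hyz' : y ≠ z := fun h' => hY (Or.inl h')
    have hzx : (z, x) ∉ Q := by
      intro h'
      exact hX (Or.inr ⟨h _ _ hxz' hxz h', h _ _ (Ne.symm hxz') h' hxz⟩)
    have hyz : (y, z) ∉ Q := by
      intro h'
      exact hY (Or.inr ⟨h _ _ hyz' h' hzy, h _ _ (Ne.symm hyz') hzy h'⟩)
    by_cases hp : (x, z) ∈ P
    · have hp2 : (z, y) ∉ P := fun h' => pxy (hP _ _ _ hp h')
      have h1 := hmin (z, y) (mem_sdiff.2 ⟨hzy, hp2⟩)
      have h2 : B (z, y) ⊂ B (x, y) := by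
        refine (ssubset_iff_of_subset ?_).2 ⟨x, ?_, ?_⟩
        · intro w hw
          simp only [B, mem_filter, mem_univ, true_and] at hw ⊢
          refine ⟨?_, hw.2⟩
          rcases hw.1 with rfl | hw1
          · exact Or.inr hxz
          · exact Or.inr (hQ _ _ _ hxz hw1)
        · simp only [B, mem_filter, mem_univ, true_and]
          exact ⟨Or.inl trivial, Or.inr qxy⟩
        · simp only [B, mem_filter, mem_univ, true_and]
          rintro ⟨h3 | h3, _⟩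
          · exact hxz' h3
          · exact hzx h3
      exact absurd (card_lt_card h2) (not_lt.2 h1)
    · have h1 := hmin (x, z) (mem_sdiff.2 ⟨hxz, hp⟩)
      have h2 : B (x, z) ⊂ B (x, y) := by
        refine (ssubset_iff_of_subset ?_).2 ⟨y, ?_, ?_⟩
        · intro w hw
          simp only [B, mem_filter, mem_univ, true_and] at hw ⊢
          refine ⟨hw.1, ?_⟩
          rcases hw.2 with rfl | hw1
          · exact Or.inr hzy
          · exact Or.inr (hQ _ _ _ hw1 hzy)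
        · simp only [B, mem_filter, mem_univ, true_and]
          exact ⟨Or.inr qxy, Or.inl trivial⟩
        · simp only [B, mem_filter, mem_univ, true_and]
          rintro ⟨_, h3 | h3⟩
          · exact hyz' h3
          · exact hyz h3
      exact absurd (card_lt_card h2) (not_lt.2 h1)
  refine ⟨(x, y), qxy, pxy, ?_⟩
  -- the map
  let f : Finset (V × V) → Finset (V × V) := fun R =>
    R.filter (fun p => ¬ (Eqv P x p.1 ∧ Eqv P y p.2))
  have hf : ∀ R u v, (u, v) ∈ f R ↔ (u, v) ∈ R ∧ ¬ (Eqv P x u ∧ Eqv P y v) := by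
    intro R u v
    simp only [f, mem_filter]
  refine card_le_card_of_injOn f ?_ ?_
  · intro R hR
    rw [mem_coe, mem_filter, mem_fam] at hR
    obtain ⟨⟨hT, hPR, hRQ⟩, hxyR⟩ := hR
    rw [mem_coe, mem_filter, mem_fam]
    refine ⟨⟨?_, ?_, ?_⟩, ?_⟩
    · intro a b c hab hbc
      rw [hf] at hab hbc ⊢
      refine ⟨hT _ _ _ hab.1 hbc.1, ?_⟩
      rintro ⟨ha, hc⟩
      have q1 : (x, b) ∈ Q := by
        rcases ha with rfl | ⟨ha, _⟩
        · exact hRQ hab.1
        · exact hQ _ _ _ (hPQ ha) (hRQ hab.1)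
      have q2 : (b, y) ∈ Q := by
        rcases hc with rfl | ⟨_, hc⟩
        · exact hRQ hbc.1
        · exact hQ _ _ _ (hRQ hbc.1) (hPQ hc)
      rcases hbet b q1 q2 with hb | hb
      · exact hbc.2 ⟨hb, hc⟩
      · exact hab.2 ⟨ha, hb⟩
    · rintro ⟨u, v⟩ huv
      rw [hf]
      refine ⟨hPR huv, ?_⟩
      rintro ⟨hu, hv⟩
      apply pxy
      have h1 : (x, v) ∈ P := by
        rcases hu with rfl | ⟨hu, _⟩
        · exact huv
        · exact hP _ _ _ hu huv
      rcases hv with rfl | ⟨_, hv⟩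
      · exact h1
      · exact hP _ _ _ h1 hv
    · exact (filter_subset _ _).trans hRQ
    · rw [hf]
      rintro ⟨_, h'⟩
      exact h' ⟨Or.inl rfl, Or.inl rfl⟩
  · intro R hR S hS hRS
    rw [mem_coe, mem_filter, mem_fam] at hR hS
    have full : ∀ R : Finset (V × V), Mid P Q R → (x, y) ∈ R → ∀ u v, Eqv P x u → Eqv P y v →
        (u, v) ∈ R := by
      rintro R ⟨hT, hPR, _⟩ hR u v hu hv
      have h1 : (u, y) ∈ R := by
        rcases hu with rfl | ⟨_, hu⟩
        · exact hR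
        · exact hT _ _ _ (hPR hu) hR
      rcases hv with rfl | ⟨hv, _⟩
      · exact h1
      · exact hT _ _ _ h1 (hPR hv)
    ext ⟨u, v⟩
    by_cases h' : Eqv P x u ∧ Eqv P y v
    · exact ⟨fun _ => full S hS.1 hS.2 u v h'.1 h'.2, fun _ => full R hR.1 hR.2 u v h'.1 h'.2⟩
    · have h1 := hf R u v
      have h2 := hf S u v
      have h3 : f R = f S := hRS
      rw [h3] at h1
      constructor
      · intro hh
        exact (h2.1 (h1.2 ⟨hh, h'⟩)).1
      · intro hh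
        exact (h1.1 (h2.2 ⟨hh, h'⟩)).1

/-- relations containing both `(x, y)` and `(y, x)` are at most as many as those containing
`(y, x)` not, and if `K` is false, none of both -/
theorem twin_count {P Q : Finset (V × V)} (hP : Tr P) (hQ : Tr Q) (hPQ : P ⊆ Q)
    {C : V → Prop} {K : Prop} {x y : V}
    (hC : ∀ a b, C a → (C b ↔ ((a, b) ∈ Q ∧ (b, a) ∈ Q)))
    (hx : C x) (hy : C y) (hxy : ¬ Eqv P y x)
    (hin : ∀ u, ¬ Eqv P y u → C u → (u, y) ∈ P → K)
    (hout : ∀ v, ¬ Eqv P y v → C v → (y, v) ∉ P)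
    (p : Finset (V × V) → Prop) [DecidablePred p]
    (hp : ∀ R, (y, x) ∉ R → (¬ K → (x, y) ∉ R) → p R) :
    ((fam P Q).filter (fun R => (x, y) ∈ R ∧ (y, x) ∈ R)).card ≤ ((fam P Q).filter p).card := by
  refine card_le_card_of_injOn (surg Q (Eqv P y) C K x) ?_ ?_
  · intro R hR
    rw [mem_coe, mem_filter, mem_fam] at hR
    rw [mem_coe, mem_filter, mem_fam]
    exact ⟨surg_mid hP hQ hPQ hC hx hy hin hout hR.1 hR.2.1 hR.2.2, hp _ (surg_not_mem hxy hx)
      (fun hK => surg_not_mem' hxy hx hK)⟩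
  · intro R hR S hS hRS
    rw [mem_coe, mem_filter, mem_fam] at hR hS
    exact surg_inj hR.1 hS.1 hxy hR.2.1 hR.2.2 hS.2.1 hS.2.2 hRS

theorem case_two {P Q : Finset (V × V)} (hP : Tr P) (hQ : Tr Q) (hPQ : P ⊆ Q)
    {s t : V} (hst : s ≠ t) (h1 : (s, t) ∈ Q) (h2 : (t, s) ∈ Q) (h3 : (s, t) ∉ P) :
    ∃ e ∈ Q, e ∉ P ∧ ((fam P Q).filter (fun R => e ∈ R)).card ≤
      ((fam P Q).filter (fun R => e ∉ R)).card := by
  let C : V → Prop := fun w => (s, w) ∈ Q ∧ (w, s) ∈ Q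
  have hC : ∀ a b, C a → (C b ↔ ((a, b) ∈ Q ∧ (b, a) ∈ Q)) := by
    rintro a b ⟨ha1, ha2⟩
    constructor
    · rintro ⟨hb1, hb2⟩
      exact ⟨hQ _ _ _ ha2 hb1, hQ _ _ _ hb2 ha1⟩
    · rintro ⟨hb1, hb2⟩
      exact ⟨hQ _ _ _ ha1 hb1, hQ _ _ _ hb2 ha2⟩
  have hss : C s := ⟨hQ _ _ _ h1 h2, hQ _ _ _ h1 h2⟩
  have hts : C t := ⟨h1, h2⟩
  by_cases hA : ∃ x y, C x ∧ C y ∧ x ≠ y ∧ (x, y) ∈ P ∧ (y, x) ∉ P
  · -- a strict pair of `P` inside the class
    let M : Finset V := univ.filter (fun y => C y ∧ ∃ x, C x ∧ x ≠ y ∧ (x, y) ∈ P ∧ (y, x) ∉ P)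
    have hM : M.Nonempty := by
      obtain ⟨x, y, hx, hy, hne, h4, h5⟩ := hA
      exact ⟨y, mem_filter.2 ⟨mem_univ _, hy, x, hx, hne, h4, h5⟩⟩
    let D : V → Finset V := fun y => univ.filter (fun w => w = y ∨ (y, w) ∈ P)
    obtain ⟨y, hyM, hmin⟩ := exists_min_image M (fun y => (D y).card) hM
    obtain ⟨-, hy, x, hx, hne, h4, h5⟩ := mem_filter.1 hyM
    have hmax : ∀ v, ¬ Eqv P y v → C v → (y, v) ∉ P := by
      intro v hv cv hyv
      have hyv' : y ≠ v := fun h' => hv (Or.inl h')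
      have hvy : (v, y) ∉ P := fun h' => hv (Or.inr ⟨hyv, h'⟩)
      have hvM : v ∈ M := mem_filter.2 ⟨mem_univ _, cv, y, hy, hyv', hyv, hvy⟩
      have h6 := hmin v hvM
      have h7 : D v ⊂ D y := by
        refine (ssubset_iff_of_subset ?_).2 ⟨y, ?_, ?_⟩
        · intro w hw
          simp only [D, mem_filter, mem_univ, true_and] at hw ⊢
          rcases hw with rfl | hw
          · exact Or.inr hyv
          · exact Or.inr (hP _ _ _ hyv hw)
        · simp only [D, mem_filter, mem_univ, true_and]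
          exact Or.inl trivial
        · simp only [D, mem_filter, mem_univ, true_and]
          rintro (h8 | h8)
          · exact hyv' h8
          · exact hvy h8
      exact absurd (card_lt_card h7) (not_lt.2 h6)
    have hxy : ¬ Eqv P y x := by
      rintro (h' | ⟨h', _⟩)
      · exact hne h'.symm
      · exact h5 h'
    have key := twin_count hP hQ hPQ (K := True) hC hx hy hxy (fun _ _ _ _ => trivial) hmax
      (fun R => (y, x) ∉ R) (fun R h _ => h)
    refine ⟨(y, x), ((hC y x hy).1 hx).1, h5, ?_⟩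
    refine le_trans (card_le_card ?_) key
    intro R hR
    rw [mem_filter] at hR ⊢
    exact ⟨hR.1, (mem_fam.1 hR.1).2.1 h4, hR.2⟩
  · push Not at hA
    -- no strict pairs
    have hsym : ∀ a b, C a → C b → (a, b) ∈ P → Eqv P b a := by
      intro a b ha hb hab
      by_cases hne : a = b
      · exact Or.inl hne.symm
      · exact Or.inr ⟨hA a b ha hb hne hab, hab⟩
    have hxy : ¬ Eqv P s t := by
      rintro (h' | ⟨h', _⟩)
      · exact hst h'
      · exact h3 h'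
    have h5 : (t, s) ∉ P := by
      intro h'
      rcases hsym t s hts hss h' with h6 | ⟨h6, _⟩
      · exact hst h6
      · exact h3 h6
    have key := twin_count hP hQ hPQ (K := False) hC hts hss hxy
      (fun u hu cu hus => hu (hsym u s cu hss hus))
      (fun v hv cv hsv => by
        rcases hsym s v hss cv hsv with h6 | ⟨h6, h7⟩
        · exact hv (Or.inl h6.symm)
        · exact hv (Or.inr ⟨h7, h6⟩))
      (fun R => (t, s) ∉ R ∧ (s, t) ∉ R) (fun R h h' => ⟨h' (fun h => h), h⟩)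
    -- counting
    let F := fam P Q
    have e1 : (F.filter (fun R => (t, s) ∈ R)).card =
        (F.filter (fun R => (t, s) ∈ R ∧ (s, t) ∈ R)).card +
        (F.filter (fun R => (t, s) ∈ R ∧ (s, t) ∉ R)).card := by
      rw [← card_filter_add_card_filter_not (s := F.filter (fun R => (t, s) ∈ R))
        (fun R => (s, t) ∈ R), filter_filter, filter_filter]
    have e2 : (F.filter (fun R => (t, s) ∉ R)).card =
        (F.filter (fun R => (t, s) ∉ R ∧ (s, t) ∈ R)).card +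
        (F.filter (fun R => (t, s) ∉ R ∧ (s, t) ∉ R)).card := by
      rw [← card_filter_add_card_filter_not (s := F.filter (fun R => (t, s) ∉ R))
        (fun R => (s, t) ∈ R), filter_filter, filter_filter]
    have e3 : (F.filter (fun R => (s, t) ∈ R)).card =
        (F.filter (fun R => (t, s) ∈ R ∧ (s, t) ∈ R)).card +
        (F.filter (fun R => (t, s) ∉ R ∧ (s, t) ∈ R)).card := by
      rw [← card_filter_add_card_filter_not (s := F.filter (fun R => (s, t) ∈ R))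
        (fun R => (t, s) ∈ R), filter_filter, filter_filter]
      congr 1 <;> congr 1 <;> ext R <;> simp only [mem_filter] <;> tauto
    have e4 : (F.filter (fun R => (s, t) ∉ R)).card =
        (F.filter (fun R => (t, s) ∈ R ∧ (s, t) ∉ R)).card +
        (F.filter (fun R => (t, s) ∉ R ∧ (s, t) ∉ R)).card := by
      rw [← card_filter_add_card_filter_not (s := F.filter (fun R => (s, t) ∉ R))
        (fun R => (t, s) ∈ R), filter_filter, filter_filter]
      congr 1 <;> congr 1 <;> ext R <;> simp only [mem_filter] <;> tauto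
    have e5 : (F.filter (fun R => (t, s) ∈ R ∧ (s, t) ∈ R)).card ≤
        (F.filter (fun R => (t, s) ∉ R ∧ (s, t) ∉ R)).card := key
    rcases le_total (F.filter (fun R => (t, s) ∈ R ∧ (s, t) ∉ R)).card
        (F.filter (fun R => (t, s) ∉ R ∧ (s, t) ∈ R)).card with h6 | h6
    · refine ⟨(t, s), h2, h5, ?_⟩
      show (F.filter (fun R => (t, s) ∈ R)).card ≤ (F.filter (fun R => (t, s) ∉ R)).card
      rw [e1, e2]
      omega
    · refine ⟨(s, t), h1, h3, ?_⟩
      show (F.filter (fun R => (s, t) ∈ R)).card ≤ (F.filter (fun R => (s, t) ∉ R)).card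
      rw [e3, e4]
      omega

/-- Some pair of `Q \ P` lies in at most half of the transitive relations between `P` and `Q`. -/
theorem rare_pair {P Q : Finset (V × V)} (hP : Tr P) (hQ : Tr Q) (hPQ : P ⊆ Q) (hne : P ≠ Q) :
    ∃ e ∈ Q, e ∉ P ∧ ((fam P Q).filter (fun R => e ∈ R)).card ≤
      ((fam P Q).filter (fun R => e ∉ R)).card := by
  by_cases h : ∀ u v, u ≠ v → (u, v) ∈ Q → (v, u) ∈ Q → (u, v) ∈ P
  · exact case_one hP hQ hPQ hne h
  · push Not at h
    obtain ⟨s, t, hst, h1, h2, h3⟩ := h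
    exact case_two hP hQ hPQ hst h1 h2 h3

end Pool.Agent.H153TR
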