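import Pool.Agent.H153TR.Main

set_option autoImplicit false

namespace Pool.Agent.H153TR

open Finset Classical

variable {V : Type*}

/-- the transitive relation generated by `P` and the pair `(a, b)` -/
noncomputable def addp (P Q : Finset (V × V)) (a b : V) : Finset (V × V) :=
  Q.filter (fun p => p ∈ P ∨ ((p.1 = a ∨ (p.1, a) ∈ P) ∧ (p.2 = b ∨ (b, p.2) ∈ P)))

theorem mem_addp {P Q : Finset (V × V)} (hQ : Tr Q) (hPQ : P ⊆ Q) {a b : V} (hab : (a, b) ∈ Q)
    (u v : V) : (u, v) ∈ addp P Q a b ↔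
      (u, v) ∈ P ∨ ((u = a ∨ (u, a) ∈ P) ∧ (v = b ∨ (b, v) ∈ P)) := by
  unfold addp
  rw [mem_filter]
  refine ⟨fun h => h.2, fun h => ⟨?_, h⟩⟩
  rcases h with h | ⟨h1, h2⟩
  · exact hPQ h
  · have h3 : (u, b) ∈ Q := by
      rcases h1 with rfl | h1
      · exact hab
      · exact hQ _ _ _ (hPQ h1) hab
    rcases h2 with rfl | h2
    · exact h3
    · exact hQ _ _ _ h3 (hPQ h2)

theorem addp_mid {P Q : Finset (V × V)} (hP : Tr P) (hQ : Tr Q) (hPQ : P ⊆ Q) {a b : V}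
    (hab : (a, b) ∈ Q) : Mid P Q (addp P Q a b) := by
  refine ⟨?_, ?_, filter_subset _ _⟩
  · intro u v w h1 h2
    rw [mem_addp hQ hPQ hab] at h1 h2 ⊢
    rcases h1 with h1 | ⟨h1, h1'⟩ <;> rcases h2 with h2 | ⟨h2, h2'⟩
    · exact Or.inl (hP _ _ _ h1 h2)
    · refine Or.inr ⟨?_, h2'⟩
      rcases h2 with rfl | h2
      · exact Or.inr h1
      · exact Or.inr (hP _ _ _ h1 h2)
    · refine Or.inr ⟨h1, ?_⟩
      rcases h1' with rfl | h1'
      · exact Or.inr h2
      · exact Or.inr (hP _ _ _ h1' h2)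
    · exact Or.inr ⟨h1, h2'⟩
  · rintro ⟨u, v⟩ h
    rw [mem_addp hQ hPQ hab]
    exact Or.inl h

/-- properties of the relations in the image of the surgery -/
def Good (P : Finset (V × V)) (C : V → Prop) (x y : V) (S : Finset (V × V)) : Prop :=
  (x, x) ∈ S ∧ (y, y) ∈ S ∧ (∀ u, ¬ Eqv P y u → (u, y) ∈ S → (u, x) ∈ S) ∧
  (∀ v, ¬ Eqv P y v → ¬ C v → (x, v) ∈ S → (y, v) ∈ S) ∧
  (∀ v, ¬ Eqv P y v → C v → (y, v) ∉ S) ∧
  (∀ u, ¬ Eqv P y u → ¬ C u → (u, x) ∈ S → (u, y) ∈ S)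

theorem surg_good {P Q : Finset (V × V)} {C : V → Prop} {K : Prop} {x y : V}
    (hxy : ¬ Eqv P y x) {R : Finset (V × V)} (hR : Mid P Q R) (h1 : (x, y) ∈ R)
    (h2 : (y, x) ∈ R) : Good P C x y (surg Q (Eqv P y) C K x R) := by
  obtain ⟨hT, hPR, hRQ⟩ := hR
  have yy : Eqv P y y := Or.inl rfl
  have plain : ∀ a b, ¬ Eqv P y a → ¬ Eqv P y b →
      ((a, b) ∈ surg Q (Eqv P y) C K x R ↔ (a, b) ∈ R) := by
    intro a b ha hb
    rw [surg_mem_iff]
    constructor
    · rintro ⟨_, h | h | h | h⟩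
      · exact h.2.2
      · exact absurd h.2.1 hb
      · exact absurd h.1 ha
      · exact absurd h.1 ha
    · intro h
      exact ⟨hRQ h, Or.inl ⟨ha, hb, h⟩⟩
  refine ⟨?_, ?_, ?_, ?_, ?_, ?_⟩
  · rw [plain x x hxy hxy]
    exact hT _ _ _ h1 h2
  · rw [surg_mem_iff]
    exact ⟨hRQ (hT _ _ _ h2 h1), Or.inr (Or.inr (Or.inr ⟨yy, yy⟩))⟩
  · intro u hu h
    rw [plain u x hu hxy]
    rw [surg_mem_iff] at h
    rcases h with ⟨_, h | h | h | h⟩
    · exact absurd yy h.2.1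
    · exact h.2.2.2
    · exact absurd h.1 hu
    · exact absurd h.1 hu
  · intro v hv hc h
    rw [plain x v hxy hv] at h
    rw [surg_mem_iff]
    exact ⟨hRQ (hT _ _ _ h2 h), Or.inr (Or.inr (Or.inl ⟨yy, hv, hc, h⟩))⟩
  · intro v hv hc h
    rw [surg_mem_iff] at h
    rcases h with ⟨_, h | h | h | h⟩
    · exact h.1 yy
    · exact h.1 yy
    · exact h.2.2.1 hc
    · exact hv h.2
  · intro u hu hc h
    rw [plain u x hu hxy] at h
    rw [surg_mem_iff]
    exact ⟨hRQ (hT _ _ _ h h1), Or.inr (Or.inl ⟨hu, yy, fun h' => absurd h' hc, h⟩)⟩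

variable [Fintype V]

theorem twin_strict {P Q : Finset (V × V)} (hP : Tr P) (hQ : Tr Q) (hPQ : P ⊆ Q)
    {C : V → Prop} {K : Prop} {x y : V}
    (hC : ∀ a b, C a → (C b ↔ ((a, b) ∈ Q ∧ (b, a) ∈ Q)))
    (hx : C x) (hy : C y) (hxy : ¬ Eqv P y x)
    (hin : ∀ u, ¬ Eqv P y u → C u → (u, y) ∈ P → K)
    (hout : ∀ v, ¬ Eqv P y v → C v → (y, v) ∉ P)
    (p : Finset (V × V) → Prop) [DecidablePred p]
    (hp : ∀ R, (y, x) ∉ R → (¬ K → (x, y) ∉ R) → p R)
    {S : Finset (V × V)} (hS : Mid P Q S) (hpS : p S) (hg : ¬ Good P C x y S) :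
    ((fam P Q).filter (fun R => (x, y) ∈ R ∧ (y, x) ∈ R)).card < ((fam P Q).filter p).card := by
  have hmem : S ∈ (fam P Q).filter p := mem_filter.2 ⟨mem_fam.2 hS, hpS⟩
  refine lt_of_le_of_lt ?_ (card_erase_lt_of_mem hmem)
  refine card_le_card_of_injOn (surg Q (Eqv P y) C K x) ?_ ?_
  · intro R hR
    rw [mem_coe, mem_filter, mem_fam] at hR
    rw [mem_coe, mem_erase, mem_filter, mem_fam]
    refine ⟨?_, surg_mid hP hQ hPQ hC hx hy hin hout hR.1 hR.2.1 hR.2.2,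
      hp _ (surg_not_mem hxy hx) (fun hK => surg_not_mem' hxy hx hK)⟩
    intro h
    exact hg (h ▸ surg_good hxy hR.1 hR.2.1 hR.2.2)
  · intro R hR S hS hRS
    rw [mem_coe, mem_filter, mem_fam] at hR hS
    exact surg_inj hR.1 hS.1 hxy hR.2.1 hR.2.2 hS.2.1 hS.2.2 hRS

/-- the pair `e` can be added to and removed from every relation -/
def FreeP (P Q : Finset (V × V)) (e : V × V) : Prop :=
  (∀ R, Mid P Q R → Mid P Q (insert e R)) ∧ Tr (Q.erase e)

omit [Fintype V] in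
theorem twin_free {P Q : Finset (V × V)} (hP : Tr P) (hQ : Tr Q) (hPQ : P ⊆ Q)
    {C : V → Prop} {K : Prop} {x y : V}
    (hC : ∀ a b, C a → (C b ↔ ((a, b) ∈ Q ∧ (b, a) ∈ Q)))
    (hx : C x) (hy : C y) (hxy : ¬ Eqv P y x)
    (hout : ∀ v, ¬ Eqv P y v → C v → (y, v) ∉ P) (hK : ¬ K → (x, y) ∉ P)
    (hCxy : ∀ b, C b → b = x ∨ b = y)
    (hG : ∀ S, Mid P Q S → (y, x) ∉ S → (¬ K → (x, y) ∉ S) → Good P C x y S) :
    FreeP P Q (y, x) := by
  have hyx : (y, x) ∉ P := hout x hxy hx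
  have hne : y ≠ x := fun h => hxy (Or.inl h)
  have qxy : (x, y) ∈ Q := ((hC x y hx).1 hy).1
  have qyx : (y, x) ∈ Q := ((hC x y hx).1 hy).2
  have hYC : ∀ w, ¬ C w → ¬ Eqv P y w := by
    rintro w hw (rfl | ⟨ha, hb⟩)
    · exact hw hy
    · exact hw ((hC y w hy).2 ⟨hPQ ha, hPQ hb⟩)
  have gP := hG P ⟨hP, subset_rfl, hPQ⟩ hyx hK
  obtain ⟨pxx, pyy, -, -, -, -⟩ := gP
  have hu : ∀ u, ¬ C u → (u, x) ∈ Q → (u, x) ∈ P := by
    intro u cu qux
    by_contra hn
    have quy : (u, y) ∈ Q := hQ _ _ _ qux qxy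
    have g := hG _ (addp_mid hP hQ hPQ quy) (by
      rw [mem_addp hQ hPQ quy]
      rintro (h | ⟨_, h | h⟩)
      · exact hyx h
      · exact hne h.symm
      · exact hyx h) (by
      intro hk
      rw [mem_addp hQ hPQ quy]
      rintro (h | ⟨h | h, _⟩)
      · exact hK hk h
      · exact cu (h ▸ hx)
      · exact cu ((hC x u hx).2 ⟨hPQ h, qux⟩))
    have h3 := g.2.2.1 u (hYC u cu) ((mem_addp hQ hPQ quy _ _).2 (Or.inr ⟨Or.inl rfl, Or.inl rfl⟩))
    rw [mem_addp hQ hPQ quy] at h3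
    rcases h3 with h | ⟨_, h | h⟩
    · exact hn h
    · exact hne h.symm
    · exact hyx h
  have hv : ∀ v, ¬ C v → (y, v) ∈ Q → (y, v) ∈ P := by
    intro v cv qyv
    by_contra hn
    have qxv : (x, v) ∈ Q := hQ _ _ _ qxy qyv
    have g := hG _ (addp_mid hP hQ hPQ qxv) (by
      rw [mem_addp hQ hPQ qxv]
      rintro (h | ⟨h | h, _⟩)
      · exact hyx h
      · exact hne h
      · exact hyx h) (by
      intro hk
      rw [mem_addp hQ hPQ qxv]
      rintro (h | ⟨_, h | h⟩)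
      · exact hK hk h
      · exact cv (h ▸ hy)
      · exact cv ((hC y v hy).2 ⟨qyv, hPQ h⟩))
    have h3 := g.2.2.2.1 v (hYC v cv) cv
      ((mem_addp hQ hPQ qxv _ _).2 (Or.inr ⟨Or.inl rfl, Or.inl rfl⟩))
    rw [mem_addp hQ hPQ qxv] at h3
    rcases h3 with h | ⟨h | h, _⟩
    · exact hn h
    · exact hne h
    · exact hyx h
  constructor
  · rintro R ⟨hT, hPR, hRQ⟩
    refine ⟨?_, hPR.trans (subset_insert _ _), insert_subset qyx hRQ⟩
    intro a b c hab hbc
    rw [mem_insert] at hab hbc ⊢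
    rcases hab with hab | hab <;> rcases hbc with hbc | hbc
    · rw [Prod.mk.injEq] at hab hbc
      exact absurd (hbc.1.symm.trans hab.2) hne
    · rw [Prod.mk.injEq] at hab
      obtain ⟨rfl, rfl⟩ := hab
      by_cases cc : C c
      · rcases hCxy c cc with rfl | rfl
        · exact Or.inl rfl
        · exact Or.inr (hPR pyy)
      · exact Or.inr (hPR (hv c cc (hQ _ _ _ qyx (hRQ hbc))))
    · rw [Prod.mk.injEq] at hbc
      obtain ⟨rfl, rfl⟩ := hbc
      by_cases ca : C a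
      · rcases hCxy a ca with rfl | rfl
        · exact Or.inr (hPR pxx)
        · exact Or.inl rfl
      · exact Or.inr (hPR (hu a ca (hQ _ _ _ (hRQ hab) qyx)))
    · exact Or.inr (hT _ _ _ hab hbc)
  · intro a b c hab hbc
    rw [mem_erase] at hab hbc ⊢
    refine ⟨?_, hQ _ _ _ hab.2 hbc.2⟩
    intro h
    rw [Prod.mk.injEq] at h
    obtain ⟨rfl, rfl⟩ := h
    have cb : C b := (hC a b hy).2 ⟨hab.2, hQ _ _ _ hbc.2 qxy⟩
    rcases hCxy b cb with rfl | rfl
    · exact hab.1 rfl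
    · exact hbc.1 rfl

/-- any two new pairs are separated by some relation -/
def Sep (P Q : Finset (V × V)) : Prop :=
  ∀ e ∈ Q, e ∉ P → ∀ e' ∈ Q, e' ∉ P → e ≠ e' →
    ∃ R, Mid P Q R ∧ ((e ∈ R ∧ e' ∉ R) ∨ (e ∉ R ∧ e' ∈ R))

/-- strictly rare pairs -/
def Rare (P Q : Finset (V × V)) : Prop :=
  ∃ e ∈ Q, e ∉ P ∧ ((fam P Q).filter (fun R => e ∈ R)).card <
      ((fam P Q).filter (fun R => e ∉ R)).card

theorem step_one {P Q : Finset (V × V)} (hP : Tr P) (hQ : Tr Q) (hPQ : P ⊆ Q) (hne : P ≠ Q)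
    (hsep : Sep P Q)
    (h : ∀ u v, u ≠ v → (u, v) ∈ Q → (v, u) ∈ Q → (u, v) ∈ P) :
    Rare P Q ∨ ∃ e ∈ Q, e ∉ P ∧ FreeP P Q e := by
  let B : V × V → Finset V := fun p =>
    univ.filter (fun w => (w = p.1 ∨ (p.1, w) ∈ Q) ∧ (w = p.2 ∨ (w, p.2) ∈ Q))
  have hn : (Q \ P).Nonempty := by
    rw [sdiff_nonempty]
    intro h'
    exact hne (subset_antisymm hPQ h')
  obtain ⟨⟨x, y⟩, hxy, hmin⟩ := exists_min_image (Q \ P) (fun p => (B p).card) hn
  rw [mem_sdiff] at hxy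
  obtain ⟨qxy, pxy⟩ := hxy
  have hbet : ∀ z, (x, z) ∈ Q → (z, y) ∈ Q → Eqv P x z ∨ Eqv P y z := by
    intro z hxz hzy
    by_contra hcon
    push Not at hcon
    obtain ⟨hX, hY⟩ := hcon
    have hxz' : x ≠ z := fun h' => hX (Or.inl h')
    have hyz' : y ≠ z := fun h' => hY (Or.inl h')
    have hzx : (z, x) ∉ Q := by
      intro h'
      exact hX (Or.inr ⟨h _ _ hxz' hxz h', h _ _ (Ne.symm hxz') h' hxz⟩)
    have hyz : (y, z) ∉ Q := by
      intro h'
      exact hY (Or.inr ⟨h _ _ hyz' h' hzy, h _ _ (Ne.symm hyz') hzy h'⟩)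
    by_cases hp : (x, z) ∈ P
    · have hp2 : (z, y) ∉ P := fun h' => pxy (hP _ _ _ hp h')
      have h1 := hmin (z, y) (mem_sdiff.2 ⟨hzy, hp2⟩)
      have h2 : B (z, y) ⊂ B (x, y) := by
        refine (ssubset_iff_of_subset ?_).2 ⟨x, ?_, ?_⟩
        · intro w hw
          simp only [B, mem_filter, mem_univ, true_and] at hw ⊢
          refine ⟨?_, hw.2⟩
          rcases hw.1 with rfl | hw1
          · exact Or.inr hxz
          · exact Or.inr (hQ _ _ _ hxz hw1)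
        · simp only [B, mem_filter, mem_univ, true_and]
          exact ⟨Or.inl trivial, Or.inr qxy⟩
        · simp only [B, mem_filter, mem_univ, true_and]
          rintro ⟨h3 | h3, _⟩
          · exact hxz' h3
          · exact hzx h3
      exact absurd (card_lt_card h2) (not_lt.2 h1)
    · have h1 := hmin (x, z) (mem_sdiff.2 ⟨hxz, hp⟩)
      have h2 : B (x, z) ⊂ B (x, y) := by
        refine (ssubset_iff_of_subset ?_).2 ⟨y, ?_, ?_⟩
        · intro w hw
          simp only [B, mem_filter, mem_univ, true_and] at hw ⊢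
          refine ⟨hw.1, ?_⟩
          rcases hw.2 with rfl | hw1
          · exact Or.inr hzy
          · exact Or.inr (hQ _ _ _ hw1 hzy)
        · simp only [B, mem_filter, mem_univ, true_and]
          exact ⟨Or.inr qxy, Or.inl trivial⟩
        · simp only [B, mem_filter, mem_univ, true_and]
          rintro ⟨_, h3 | h3⟩
          · exact hyz' h3
          · exact hyz h3
      exact absurd (card_lt_card h2) (not_lt.2 h1)
  -- equivalent pairs are equal
  have uniq : ∀ u v, Eqv P x u → Eqv P y v → (u, v) = (x, y) := by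
    intro u v hu hv
    have up : ∀ R : Finset (V × V), Mid P Q R → ((x, y) ∈ R ↔ (u, v) ∈ R) := by
      rintro R ⟨hT, hPR, _⟩
      constructor
      · intro hR
        have h1 : (u, y) ∈ R := by
          rcases hu with rfl | ⟨_, hu⟩
          · exact hR
          · exact hT _ _ _ (hPR hu) hR
        rcases hv with rfl | ⟨hv, _⟩
        · exact h1
        · exact hT _ _ _ h1 (hPR hv)
      · intro hR
        have h1 : (x, v) ∈ R := by
          rcases hu with rfl | ⟨hu, _⟩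
          · exact hR
          · exact hT _ _ _ (hPR hu) hR
        rcases hv with rfl | ⟨_, hv⟩
        · exact h1
        · exact hT _ _ _ h1 (hPR hv)
    by_contra hneq
    have hq : (u, v) ∈ Q := (up Q ⟨hQ, hPQ, subset_rfl⟩).1 qxy
    have hp' : (u, v) ∉ P := fun h' => pxy ((up P ⟨hP, subset_rfl, hPQ⟩).2 h')
    obtain ⟨R, hR, h1 | h1⟩ := hsep _ hq hp' _ qxy pxy hneq
    · exact h1.2 ((up R hR).2 h1.1)
    · exact h1.1 ((up R hR).1 h1.2)
  have era : ∀ R, Mid P Q R → Mid P Q (R.erase (x, y)) := by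
    rintro R ⟨hT, hPR, hRQ⟩
    refine ⟨?_, ?_, (erase_subset _ _).trans hRQ⟩
    · intro a b c hab hbc
      rw [mem_erase] at hab hbc ⊢
      refine ⟨?_, hT _ _ _ hab.2 hbc.2⟩
      intro h'
      rw [Prod.mk.injEq] at h'
      obtain ⟨rfl, rfl⟩ := h'
      rcases hbet b (hRQ hab.2) (hRQ hbc.2) with hb | hb
      · exact hbc.1 (uniq b c hb (Or.inl rfl))
      · exact hab.1 (uniq a b (Or.inl rfl) hb)
    · intro p hp
      rw [mem_erase]
      exact ⟨fun h' => pxy (h' ▸ hp), hPR hp⟩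
  by_cases hfree : ∀ R, Mid P Q R → Mid P Q (insert (x, y) R)
  · exact Or.inr ⟨(x, y), qxy, pxy, hfree, (era Q ⟨hQ, hPQ, subset_rfl⟩).1⟩
  · left
    push Not at hfree
    obtain ⟨S, hS, hS'⟩ := hfree
    have hnS : (x, y) ∉ S := by
      intro h'
      rw [insert_eq_self.2 h'] at hS'
      exact hS' hS
    refine ⟨(x, y), qxy, pxy, ?_⟩
    have hmem : S ∈ (fam P Q).filter (fun R => (x, y) ∉ R) :=
      mem_filter.2 ⟨mem_fam.2 hS, hnS⟩
    refine lt_of_le_of_lt ?_ (card_erase_lt_of_mem hmem)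
    refine card_le_card_of_injOn (fun R => R.erase (x, y)) ?_ ?_
    · intro R hR
      rw [mem_coe, mem_filter, mem_fam] at hR
      rw [mem_coe, mem_erase, mem_filter, mem_fam]
      refine ⟨?_, era R hR.1, notMem_erase _ _⟩
      intro h'
      apply hS'
      have h'' : R.erase (x, y) = S := h'
      rw [← h'', insert_erase hR.2]
      exact hR.1
    · intro R hR T hT hRT
      rw [mem_coe, mem_filter, mem_fam] at hR hT
      have h' : R.erase (x, y) = T.erase (x, y) := hRT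
      rw [← insert_erase hR.2, h', insert_erase hT.2]

end Pool.Agent.H153TR
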