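import Pool.Agent.H153TR.Main

set_option autoImplicit false

namespace Pool.Agent.H153TR

open Finset

/-- The complements of the transitive relations between `P` and `Q`. -/
theorem weak {V : Type*} [Finite V] [DecidableEq V] (P Q : Finset (V × V))
    (hP : ∀ a b c, (a, b) ∈ P → (b, c) ∈ P → (a, c) ∈ P)
    (hQ : ∀ a b c, (a, b) ∈ Q → (b, c) ∈ Q → (a, c) ∈ Q) (hPQ : P ⊆ Q)
    (A : Finset (Finset (V × V)))
    (hA : ∀ X, X ∈ A ↔ ∃ R : Finset (V × V), (∀ a b c, (a, b) ∈ R → (b, c) ∈ R → (a, c) ∈ R) ∧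
      P ⊆ R ∧ R ⊆ Q ∧ X = Q \ R) :
    (∀ X ∈ A, ∀ Y ∈ A, X ∪ Y ∈ A) ∧ A.sup id = Q \ P ∧
    (P ≠ Q → ∃ e ∈ Q \ P, A.card ≤ 2 * (A.filter (fun X => e ∈ X)).card) := by
  refine ⟨?_, ?_, ?_⟩
  · intro X hX Y hY
    rw [hA] at hX hY ⊢
    obtain ⟨R, h1, h2, h3, rfl⟩ := hX
    obtain ⟨S, h4, h5, h6, rfl⟩ := hY
    refine ⟨R ∩ S, ?_, ?_, ?_, ?_⟩
    · intro a b c hab hbc
      rw [mem_inter] at *
      exact ⟨h1 a b c hab.1 hbc.1, h4 a b c hab.2 hbc.2⟩
    · exact subset_inter h2 h5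
    · exact inter_subset_left.trans h3
    · rw [sdiff_inter_distrib_right]
  · apply subset_antisymm
    · refine Finset.sup_le ?_
      intro X hX
      obtain ⟨R, h1, h2, h3, rfl⟩ := (hA X).1 hX
      exact sdiff_subset_sdiff subset_rfl h2
    · exact Finset.le_sup (f := id) ((hA _).2 ⟨P, hP, subset_rfl, hPQ, rfl⟩)
  · intro hne
    have := Fintype.ofFinite V
    obtain ⟨e, he, heP, hc⟩ := rare_pair (P := P) (Q := Q) hP hQ hPQ hne
    refine ⟨e, mem_sdiff.2 ⟨he, heP⟩, ?_⟩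
    classical
    have hAi : A = (fam P Q).image (fun R => Q \ R) := by
      ext X
      rw [hA, mem_image]
      constructor
      · rintro ⟨R, h1, h2, h3, rfl⟩
        exact ⟨R, mem_fam.2 ⟨h1, h2, h3⟩, rfl⟩
      · rintro ⟨R, h1, rfl⟩
        obtain ⟨h1, h2, h3⟩ := mem_fam.1 h1
        exact ⟨R, h1, h2, h3, rfl⟩
    have hinj : Set.InjOn (fun R => Q \ R) (fam P Q : Set (Finset (V × V))) := by
      intro R hR S hS h
      have hR' := (mem_fam.1 (mem_coe.1 hR)).2.2
      have hS' := (mem_fam.1 (mem_coe.1 hS)).2.2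
      have h' : Q \ R = Q \ S := h
      rw [← Finset.sdiff_sdiff_eq_self hR', h', Finset.sdiff_sdiff_eq_self hS']
    have h1 : A.card = (fam P Q).card := by
      rw [hAi, card_image_of_injOn hinj]
    have h2 : (A.filter (fun X => e ∈ X)).card = ((fam P Q).filter (fun R => e ∉ R)).card := by
      rw [hAi, filter_image, card_image_of_injOn]
      · congr 1
        ext R
        rw [mem_filter, mem_filter, mem_sdiff]
        exact ⟨fun h => ⟨h.1, h.2.2⟩, fun h => ⟨h.1, he, h.2⟩⟩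
      · intro R hR S hS h
        exact hinj (mem_coe.2 (mem_filter.1 (mem_coe.1 hR)).1)
          (mem_coe.2 (mem_filter.1 (mem_coe.1 hS)).1) h
    have h3 := card_filter_add_card_filter_not (s := fam P Q) (fun R => e ∈ R)
    rw [h1, h2]
    have h4 : ((fam P Q).filter (fun R => e ∈ R)).card ≤
        ((fam P Q).filter (fun R => e ∉ R)).card := by
      convert hc
    have h5 : (filter (fun R => e ∈ R) (fam P Q)).card + (filter (fun R => e ∉ R) (fam P Q)).card
        = (fam P Q).card := by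
      convert h3
    omega

end Pool.Agent.H153TR
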